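import Pool.Agent.L5helper57.TD.Red

/-!
# Correctness of the reduction
-/

set_option autoImplicit false

namespace Pool.Agent.NPC.L5h57.TD

open Pool.Agent.NPC Pool.Agent.H692R2 Pool.Agent.NPC.R542

theorem hub_lt (m : ℕ) : hub m < NN m := by unfold NN; omega

theorem six_lt (m : ℕ) : 6 * m ≤ hub m := (six_le_cl0 m).trans (cl0_le_hub m)

theorem adjN_hub (φ : F3) (b : ℕ) : adjN φ (hub φ.length) b = true ↔
    b < 6 * φ.length ∨ hub φ.length < b := by
  have h1 := six_le_cl0 φ.length
  have h2 := cl0_le_hub φ.length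
  unfold adjN
  rw [Bool.or_eq_true, adjE_iff, adjE_iff]
  constructor
  · rintro ((h | h | h | h) | (h | h | h | h)) <;> omega
  · rintro (h | h)
    · right; right; right; left; exact ⟨h, rfl⟩
    · left; right; right; right; exact ⟨rfl, h⟩

theorem adjN_lit (φ : F3) {a : ℕ} (ha : a < 6 * φ.length) (b : ℕ) : adjN φ a b = true ↔
    (6 * φ.length ≤ b ∧ b < cl0 φ.length ∧ (b - 6 * φ.length) % (3 * φ.length) = a / 2) ∨
    (cl0 φ.length ≤ b ∧ b < hub φ.length ∧ hasLit (φ.getD (b - cl0 φ.length) dflt) a = true) ∨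
    b = hub φ.length := by
  have h1 := six_le_cl0 φ.length
  have h2 := cl0_le_hub φ.length
  unfold adjN
  rw [Bool.or_eq_true, adjE_iff, adjE_iff]
  constructor
  · rintro ((h | h | h | h) | (h | h | h | h))
    · exact Or.inl h.2
    · exact Or.inr (Or.inl h.2)
    · exact Or.inr (Or.inr h.2)
    · omega
    all_goals omega
  · rintro (h | h | h)
    · exact Or.inl (Or.inl ⟨ha, h⟩)
    · exact Or.inl (Or.inr (Or.inl ⟨ha, h⟩))
    · exact Or.inl (Or.inr (Or.inr (Or.inl ⟨ha, h⟩)))

theorem adjN_w (φ : F3) {b : ℕ} (h1 : 6 * φ.length ≤ b) (h2 : b < cl0 φ.length) {a : ℕ} :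
    adjN φ b a = true ↔ a < 6 * φ.length ∧ (b - 6 * φ.length) % (3 * φ.length) = a / 2 := by
  have h3 := cl0_le_hub φ.length
  unfold adjN
  rw [Bool.or_eq_true, adjE_iff, adjE_iff]
  constructor
  · rintro ((h | h | h | h) | (h | h | h | h)) <;> omega
  · rintro ⟨h4, h5⟩
    exact Or.inr (Or.inl ⟨h4, h1, h2, h5⟩)

theorem adjN_cl (φ : F3) {b : ℕ} (h1 : cl0 φ.length ≤ b) (h2 : b < hub φ.length) {a : ℕ} :
    adjN φ b a = true ↔ a < 6 * φ.length ∧ hasLit (φ.getD (b - cl0 φ.length) dflt) a = true := by
  have h3 := six_le_cl0 φ.length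
  unfold adjN
  rw [Bool.or_eq_true, adjE_iff, adjE_iff]
  constructor
  · rintro ((h | h | h | h) | (h | h | h | h))
    all_goals try omega
    exact ⟨h.1, h.2.2.2⟩
  · rintro ⟨h4, h5⟩
    exact Or.inr (Or.inr (Or.inl ⟨h4, h1, h2, h5⟩))

theorem adjN_leaf (φ : F3) {b : ℕ} (h1 : hub φ.length < b) {a : ℕ} :
    adjN φ b a = true ↔ a = hub φ.length := by
  have h2 := six_le_cl0 φ.length
  have h3 := cl0_le_hub φ.length
  unfold adjN
  rw [Bool.or_eq_true, adjE_iff, adjE_iff]
  constructor
  · rintro ((h | h | h | h) | (h | h | h | h)) <;> omega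
  · rintro h
    exact Or.inr (Or.inr (Or.inr (Or.inr ⟨h, h1⟩)))

/-! ### Degrees -/

/-- neighbours as natural numbers -/
def nbr (φ : F3) (a : ℕ) : Finset ℕ := (Finset.range (NN φ.length)).filter fun b => adjN φ a b = true

open Classical in
theorem degree_eq (φ : F3) (x : Fin (NN φ.length)) : (GG φ).degree x = (nbr φ x).card := by
  rw [← SimpleGraph.card_neighborFinset_eq_degree]
  refine Finset.card_bij (fun b _ => (b : ℕ)) ?_ ?_ ?_
  · intro b hb
    rw [SimpleGraph.mem_neighborFinset] at hb
    unfold nbr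
    rw [Finset.mem_filter, Finset.mem_range]
    exact ⟨b.2, hb⟩
  · intro b _ b' _ h
    exact Fin.ext h
  · intro b hb
    unfold nbr at hb
    rw [Finset.mem_filter, Finset.mem_range] at hb
    exact ⟨⟨b, hb.1⟩, by rw [SimpleGraph.mem_neighborFinset]; exact hb.2, rfl⟩

/-- the copies of a variable -/
def cps (m i : ℕ) : Finset ℕ := (Finset.range (rr m)).image fun k => 6 * m + (k * (3 * m) + i)

theorem mem_cps {m i : ℕ} (hi : i < 3 * m) {b : ℕ} :
    b ∈ cps m i ↔ 6 * m ≤ b ∧ b < cl0 m ∧ (b - 6 * m) % (3 * m) = i := by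
  unfold cps
  rw [Finset.mem_image]
  constructor
  · rintro ⟨k, hk, rfl⟩
    rw [Finset.mem_range] at hk
    refine ⟨by omega, ?_, ?_⟩
    · unfold cl0
      have : (k + 1) * (3 * m) ≤ rr m * (3 * m) := Nat.mul_le_mul_right _ hk
      rw [Nat.mul_comm (3 * m) (rr m)]
      rw [Nat.add_mul] at this
      omega
    · rw [Nat.add_sub_cancel_left, Nat.mul_add_mod_self_right, Nat.mod_eq_of_lt hi]
  · rintro ⟨h1, h2, h3⟩
    refine ⟨(b - 6 * m) / (3 * m), ?_, ?_⟩
    · rw [Finset.mem_range]
      apply Nat.div_lt_of_lt_mul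
      unfold cl0 at h2
      omega
    · rw [← h3, Nat.div_add_mod' (b - 6 * m) (3 * m)]
      omega

theorem card_cps {m i : ℕ} (hi : i < 3 * m) : (cps m i).card = rr m := by
  unfold cps
  rw [Finset.card_image_of_injective, Finset.card_range]
  intro k k' h
  simp only at h
  have h1 : k * (3 * m) = k' * (3 * m) := by omega
  exact Nat.eq_of_mul_eq_mul_right (by omega) h1

theorem card_nbr_hub (φ : F3) : (nbr φ (hub φ.length)).card = 6 * φ.length + bd φ.length := by
  have h1 : nbr φ (hub φ.length) = Finset.range (6 * φ.length) ∪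
      Finset.Ioo (hub φ.length) (NN φ.length) := by
    ext b
    unfold nbr
    rw [Finset.mem_filter, adjN_hub, Finset.mem_union, Finset.mem_range, Finset.mem_range,
      Finset.mem_Ioo]
    have := six_lt φ.length
    have := hub_lt φ.length
    constructor
    · rintro ⟨h1, h2 | h2⟩
      · exact Or.inl h2
      · exact Or.inr ⟨h2, h1⟩
    · rintro (h | h)
      · exact ⟨by omega, Or.inl h⟩
      · exact ⟨h.2, Or.inr h.1⟩
  rw [h1, Finset.card_union_of_disjoint, Finset.card_range, Nat.card_Ioo]
  · unfold NN; omega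
  · rw [Finset.disjoint_left]
    intro b hb hb'
    rw [Finset.mem_range] at hb
    rw [Finset.mem_Ioo] at hb'
    have := six_lt φ.length
    omega

theorem card_nbr_lit_ge (φ : F3) {a : ℕ} (ha : a < 6 * φ.length) :
    1 + rr φ.length ≤ (nbr φ a).card := by
  have hi : a / 2 < 3 * φ.length := by omega
  have h1 : insert (hub φ.length) (cps φ.length (a / 2)) ⊆ nbr φ a := by
    intro b hb
    have h3 := six_lt φ.length
    have h4 := hub_lt φ.length
    have h5 := cl0_le_hub φ.length
    unfold nbr
    rw [Finset.mem_filter, adjN_lit φ ha, Finset.mem_range]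
    rw [Finset.mem_insert, mem_cps hi] at hb
    rcases hb with h | h
    · exact ⟨by omega, Or.inr (Or.inr h)⟩
    · exact ⟨by omega, Or.inl h⟩
  have h2 := Finset.card_le_card h1
  rw [Finset.card_insert_of_notMem, card_cps hi] at h2
  · omega
  · rw [mem_cps hi]
    have h5 := cl0_le_hub φ.length
    omega

theorem card_nbr_le (φ : F3) (hm : 1 ≤ φ.length) {a : ℕ} (ha : a ≠ hub φ.length) :
    (nbr φ a).card ≤ bd φ.length := by
  rcases lt_or_ge a (6 * φ.length) with h | h
  · have hi : a / 2 < 3 * φ.length := by omega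
    have h1 : nbr φ a ⊆ insert (hub φ.length) (cps φ.length (a / 2)) ∪
        Finset.Ico (cl0 φ.length) (hub φ.length) := by
      intro b hb
      unfold nbr at hb
      rw [Finset.mem_filter, adjN_lit φ h] at hb
      rw [Finset.mem_union, Finset.mem_insert, mem_cps hi, Finset.mem_Ico]
      rcases hb.2 with h | h | h
      · exact Or.inl (Or.inr h)
      · exact Or.inr ⟨h.1, h.2.1⟩
      · exact Or.inl (Or.inl h)
    have h2 := Finset.card_le_card h1
    have h3 := Finset.card_union_le (insert (hub φ.length) (cps φ.length (a / 2)))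
      (Finset.Ico (cl0 φ.length) (hub φ.length))
    have h4 := Finset.card_insert_le (hub φ.length) (cps φ.length (a / 2))
    rw [card_cps hi] at h4
    rw [Nat.card_Ico] at h3
    unfold bd
    unfold hub at h3 h2
    unfold hub at h4
    omega
  · rcases lt_or_ge a (hub φ.length) with h' | h'
    · have h1 : nbr φ a ⊆ Finset.range (6 * φ.length) := by
        intro b hb
        unfold nbr at hb
        rw [Finset.mem_filter] at hb
        rw [Finset.mem_range]
        rcases lt_or_ge a (cl0 φ.length) with h'' | h''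
        · exact ((adjN_w φ h h'').1 hb.2).1
        · exact ((adjN_cl φ h'' h').1 hb.2).1
      have h2 := Finset.card_le_card h1
      rw [Finset.card_range] at h2
      refine h2.trans ?_
      unfold bd rr
      nlinarith
    · have h1 : nbr φ a ⊆ {hub φ.length} := by
        intro b hb
        unfold nbr at hb
        rw [Finset.mem_filter, adjN_leaf φ (by omega)] at hb
        rw [Finset.mem_singleton]
        exact hb.2
      have h2 := Finset.card_le_card h1
      rw [Finset.card_singleton] at h2
      unfold bd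
      omega

/-! ### The sub-total domination number -/

/-- the hub as a vertex -/
def hubV (φ : F3) : Fin (NN φ.length) := ⟨hub φ.length, hub_lt _⟩

theorem bd_lt (m : ℕ) : bd m ≤ 6 * m + bd m := by omega

theorem top_le (φ : F3) (hm : 1 ≤ φ.length) (k : ℕ) :
    ((degSeq (GG φ)).take (k + 1)).sum ≤ 6 * φ.length + bd φ.length + k * bd φ.length := by
  classical
  have h1 : (Finset.univ : Finset (Fin (NN φ.length))).val.map (fun v => (GG φ).degree v) =
      (GG φ).degree (hubV φ) ::ₘ
        ((Finset.univ.erase (hubV φ)).val.map fun v => (GG φ).degree v) := by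
    rw [← Multiset.map_cons (fun v => (GG φ).degree v), ← Finset.insert_val_of_notMem
      (Finset.notMem_erase _ _), Finset.insert_erase (Finset.mem_univ _)]
  have h2 : ∀ b ∈ ((Finset.univ.erase (hubV φ)).val.map fun v => (GG φ).degree v),
      b ≤ bd φ.length := by
    intro b hb
    rw [Multiset.mem_map] at hb
    obtain ⟨v, hv, rfl⟩ := hb
    rw [Finset.mem_val, Finset.mem_erase] at hv
    rw [degree_eq]
    refine card_nbr_le φ hm fun h => hv.1 (Fin.ext h)
  have h3 : (GG φ).degree (hubV φ) = 6 * φ.length + bd φ.length := by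
    rw [degree_eq]
    exact card_nbr_hub φ
  have h4 : degSeq (GG φ) = (GG φ).degree (hubV φ) ::
      ((Finset.univ.erase (hubV φ)).val.map fun v => (GG φ).degree v).sort (· ≥ ·) := by
    unfold degSeq
    rw [← Multiset.sort_cons, ← h1]
    intro b hb
    rw [h3]
    exact (h2 b hb).trans (bd_lt _)
  rw [h4, List.take_succ_cons, List.sum_cons, h3]
  have h5 : ((((Finset.univ.erase (hubV φ)).val.map fun v => (GG φ).degree v).sort
      (· ≥ ·)).take k).sum ≤ (((((Finset.univ.erase (hubV φ)).val.map fun v =>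
        (GG φ).degree v).sort (· ≥ ·)).take k).length) • bd φ.length := by
    apply List.sum_le_card_nsmul
    intro b hb
    exact h2 b ((Multiset.mem_sort _).1 (List.mem_of_mem_take hb))
  rw [smul_eq_mul, List.length_take] at h5
  have h6 := Nat.mul_le_mul_right (bd φ.length) (min_le_left k
    (((Finset.univ.erase (hubV φ)).val.map fun v => (GG φ).degree v).sort (· ≥ ·)).length)
  omega

theorem top_lt (φ : F3) (hm : 1 ≤ φ.length) {k : ℕ} (hk : k ≤ 3 * φ.length) :
    ((degSeq (GG φ)).take k).sum < NN φ.length := by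
  refine lt_of_le_of_lt (take_sum_mono _ (hk.trans (by omega : 3 * φ.length ≤
    (3 * φ.length - 1) + 1))) ?_
  refine lt_of_le_of_lt (top_le φ hm _) ?_
  obtain ⟨q, hq⟩ : ∃ q, 3 * φ.length = q + 1 := ⟨3 * φ.length - 1, by omega⟩
  have h1 : 3 * φ.length - 1 = q := by omega
  rw [h1]
  have h2 : NN φ.length = 6 * φ.length + 3 * φ.length * rr φ.length + φ.length + 1 +
      bd φ.length := rfl
  rw [h2]
  have h3 : (q + 1) * bd φ.length = q * bd φ.length + bd φ.length := by ring
  rw [← hq] at h3
  have h4 : 3 * φ.length * bd φ.length = 3 * φ.length * rr φ.length +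
      3 * φ.length * (φ.length + 1) := by unfold bd; ring
  have h5 : rr φ.length = 3 * φ.length * (φ.length + 1) := rfl
  have h6 : bd φ.length = 1 + rr φ.length + φ.length := rfl
  omega

theorem le_top (φ : F3) (hm : 1 ≤ φ.length) :
    NN φ.length ≤ ((degSeq (GG φ)).take (3 * φ.length + 1)).sum := by
  classical
  let g : Fin (3 * φ.length) → Fin (NN φ.length) := fun i => ⟨2 * i, by
    have := i.2; have := six_lt φ.length; have := hub_lt φ.length; omega⟩
  have hg : Function.Injective g := by
    intro i j h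
    have := congrArg Fin.val h
    simp only [g] at this
    exact Fin.ext (by omega)
  have hnot : hubV φ ∉ Finset.univ.image g := by
    rw [Finset.mem_image]
    rintro ⟨i, _, hi⟩
    have := congrArg Fin.val hi
    simp only [g, hubV] at this
    have := i.2
    have := six_lt φ.length
    omega
  have hcard : (insert (hubV φ) (Finset.univ.image g)).card = 3 * φ.length + 1 := by
    rw [Finset.card_insert_of_notMem hnot, Finset.card_image_of_injective _ hg, Finset.card_univ,
      Fintype.card_fin]
  have h1 := sum_degree_le (GG φ) (insert (hubV φ) (Finset.univ.image g))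
  rw [hcard] at h1
  refine le_trans ?_ h1
  rw [Finset.sum_insert hnot, degree_eq, Finset.sum_image (fun x _ y _ h => hg h)]
  have h2 : ∑ _i : Fin (3 * φ.length), (1 + rr φ.length) ≤
      ∑ i : Fin (3 * φ.length), (GG φ).degree (g i) := by
    refine Finset.sum_le_sum fun i _ => ?_
    rw [degree_eq]
    apply card_nbr_lit_ge
    simp only [g]
    have := i.2
    omega
  rw [Finset.sum_const, Finset.card_univ, Fintype.card_fin, smul_eq_mul] at h2
  have h3 : (nbr φ (hubV φ)).card = 6 * φ.length + bd φ.length := card_nbr_hub φ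
  rw [h3]
  have h4 : NN φ.length = 6 * φ.length + 3 * φ.length * rr φ.length + φ.length + 1 +
      bd φ.length := rfl
  have h5 : 3 * φ.length * (1 + rr φ.length) = 3 * φ.length + 3 * φ.length * rr φ.length := by
    ring
  omega

/-! ### Total dominating sets -/

theorem litOf_two_mul (τ : ℕ → Bool) (i : ℕ) :
    litOf (2 * i + (if τ i then 0 else 1)) = (τ i, i) := by
  unfold litOf
  cases h : τ i
  · simp only [Bool.false_eq_true, if_false]
    rw [Prod.mk.injEq]
    refine ⟨?_, by omega⟩
    rw [decide_eq_false_iff_not]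
    omega
  · simp only [if_true]
    rw [Prod.mk.injEq]
    refine ⟨?_, by omega⟩
    rw [decide_eq_true_iff]
    omega

theorem noIsolated (φ : F3) (hb : Bounded3 φ) (hm : 1 ≤ φ.length) : NoIsolated (GG φ) := by
  intro x
  have h3 := six_lt φ.length
  have h4 := hub_lt φ.length
  have h5 := cl0_le_hub φ.length
  rcases lt_or_ge (x : ℕ) (6 * φ.length) with h | h
  · exact ⟨hubV φ, (adjN_lit φ h _).2 (Or.inr (Or.inr rfl))⟩
  · rcases lt_or_ge (x : ℕ) (cl0 φ.length) with h' | h'
    · have h6 : ((x : ℕ) - 6 * φ.length) % (3 * φ.length) < 3 * φ.length :=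
        Nat.mod_lt _ (by omega)
      refine ⟨⟨2 * (((x : ℕ) - 6 * φ.length) % (3 * φ.length)), by omega⟩,
        (adjN_w φ h h').2 ⟨?_, ?_⟩⟩
      · simp only; omega
      · simp only; omega
    · rcases lt_trichotomy (x : ℕ) (hub φ.length) with h'' | h'' | h''
      · have hlen : (x : ℕ) - cl0 φ.length < φ.length := by unfold hub at h''; omega
        have hc : φ.getD ((x : ℕ) - cl0 φ.length) dflt ∈ φ := by
          rw [List.getD_eq_getElem _ _ hlen]
          exact List.getElem_mem _
        obtain ⟨hb1, -, -⟩ := hb _ hc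
        let c := φ.getD ((x : ℕ) - cl0 φ.length) dflt
        have hlt : 2 * c.1.2 + (if c.1.1 then 0 else 1) < 6 * φ.length := by
          have : (if c.1.1 then 0 else 1) ≤ 1 := by split_ifs <;> omega
          have hb1' : c.1.2 < 3 * φ.length := hb1
          omega
        refine ⟨⟨2 * c.1.2 + (if c.1.1 then 0 else 1), by omega⟩,
          (adjN_cl φ h' h'').2 ⟨hlt, ?_⟩⟩
        have h7 := litOf_two_mul (fun _ => c.1.1) c.1.2
        unfold hasLit
        rw [Bool.or_eq_true, Bool.or_eq_true]
        left; left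
        rw [decide_eq_true_iff, h7]
      · refine ⟨⟨0, by omega⟩, ?_⟩
        change adjN φ x 0 = true
        rw [h'', adjN_hub]
        left; omega
      · exact ⟨hubV φ, (adjN_leaf φ h'').2 rfl⟩

theorem dom_of_sat (φ : F3) (hb : Bounded3 φ) (hm : 1 ≤ φ.length) (h : SAT3 φ) :
    ∃ S : Finset (Fin (NN φ.length)), IsTotalDom (GG φ) S ∧ S.card ≤ 3 * φ.length + 1 := by
  classical
  have h3 := six_lt φ.length
  have h4 := hub_lt φ.length
  have h5 := cl0_le_hub φ.length
  obtain ⟨τ, hτ⟩ := h
  have hlt : ∀ i < 3 * φ.length, 2 * i + (if τ i then 0 else 1) < 6 * φ.length := by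
    intro i hi
    have : (if τ i then 0 else 1) ≤ 1 := by split_ifs <;> omega
    omega
  let g : Fin (3 * φ.length) → Fin (NN φ.length) := fun i =>
    ⟨2 * i + (if τ i then 0 else 1), by have := hlt i i.2; omega⟩
  refine ⟨insert (hubV φ) (Finset.univ.image g), ?_, ?_⟩
  swap
  · refine (Finset.card_insert_le _ _).trans ?_
    have := Finset.card_image_le (s := (Finset.univ : Finset (Fin (3 * φ.length)))) (f := g)
    rw [Finset.card_univ, Fintype.card_fin] at this
    omega
  have hgmem : ∀ i : Fin (3 * φ.length), g i ∈ insert (hubV φ) (Finset.univ.image g) :=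
    fun i => Finset.mem_insert_of_mem (Finset.mem_image_of_mem _ (Finset.mem_univ _))
  intro x
  rcases lt_or_ge (x : ℕ) (6 * φ.length) with h | h
  · exact ⟨hubV φ, Finset.mem_insert_self _ _, (adjN_lit φ h _).2 (Or.inr (Or.inr rfl))⟩
  · rcases lt_or_ge (x : ℕ) (cl0 φ.length) with h' | h'
    · have h6 : ((x : ℕ) - 6 * φ.length) % (3 * φ.length) < 3 * φ.length :=
        Nat.mod_lt _ (by omega)
      refine ⟨g ⟨_, h6⟩, hgmem _, (adjN_w φ h h').2 ⟨hlt _ h6, ?_⟩⟩
      simp only [g]
      have : (if τ (((x : ℕ) - 6 * φ.length) % (3 * φ.length)) then 0 else 1) ≤ 1 := by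
        split_ifs <;> omega
      omega
    · rcases lt_trichotomy (x : ℕ) (hub φ.length) with h'' | h'' | h''
      · have hlen : (x : ℕ) - cl0 φ.length < φ.length := by unfold hub at h''; omega
        have hc : φ.getD ((x : ℕ) - cl0 φ.length) dflt ∈ φ := by
          rw [List.getD_eq_getElem _ _ hlen]
          exact List.getElem_mem _
        obtain ⟨hb1, hb2, hb3⟩ := hb _ hc
        have key : ∃ i, i < 3 * φ.length ∧
            hasLit (φ.getD ((x : ℕ) - cl0 φ.length) dflt)
              (2 * i + (if τ i then 0 else 1)) = true := by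
          unfold hasLit
          rcases hτ _ hc with h7 | h7 | h7
          · refine ⟨_, hb1, ?_⟩
            rw [litOf_two_mul, h7]
            simp
          · refine ⟨_, hb2, ?_⟩
            rw [litOf_two_mul, h7]
            simp
          · refine ⟨_, hb3, ?_⟩
            rw [litOf_two_mul, h7]
            simp
        obtain ⟨i, hi, hi'⟩ := key
        exact ⟨g ⟨i, hi⟩, hgmem _, (adjN_cl φ h' h'').2 ⟨hlt _ hi, hi'⟩⟩
      · refine ⟨g ⟨0, by omega⟩, hgmem _, ?_⟩
        change adjN φ x _ = true
        rw [h'', adjN_hub]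
        left
        exact hlt 0 (by omega)
      · exact ⟨hubV φ, Finset.mem_insert_self _ _, (adjN_leaf φ h'').2 rfl⟩

theorem sat_of_dom (φ : F3) (hm : 1 ≤ φ.length) {S : Finset (Fin (NN φ.length))}
    (hS : IsTotalDom (GG φ) S) (hc : S.card ≤ 3 * φ.length + 1) : SAT3 φ := by
  classical
  have h3 := six_lt φ.length
  have h4 := hub_lt φ.length
  have h5 := cl0_le_hub φ.length
  have hrr : 1 ≤ rr φ.length := by unfold rr; nlinarith
  have hcl : 6 * φ.length + 3 * φ.length ≤ cl0 φ.length := by
    unfold cl0; nlinarith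
  let S' : Finset ℕ := S.image Fin.val
  have hcard : S'.card = S.card := Finset.card_image_of_injective _ Fin.val_injective
  have hmem : ∀ x ∈ S, (x : ℕ) ∈ S' := fun x hx => Finset.mem_image_of_mem _ hx
  -- the hub
  have hhub : hub φ.length ∈ S' := by
    obtain ⟨u, hu, hu'⟩ := hS ⟨hub φ.length + 1, by unfold NN bd; omega⟩
    have h6 : (u : ℕ) = hub φ.length := (adjN_leaf φ (b := hub φ.length + 1) (by omega)).1 hu'
    rw [← h6]
    exact hmem u hu
  have hone : ∀ i < 3 * φ.length, 2 * i ∈ S' ∨ 2 * i + 1 ∈ S' := by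
    intro i hi
    obtain ⟨u, hu, hu'⟩ := hS ⟨6 * φ.length + i, by omega⟩
    have h6 := (adjN_w φ (b := 6 * φ.length + i) (by omega) (by omega)).1 hu'
    rw [Nat.add_sub_cancel_left, Nat.mod_eq_of_lt hi] at h6
    have h7 : (u : ℕ) = 2 * i ∨ (u : ℕ) = 2 * i + 1 := by omega
    rcases h7 with h7 | h7
    · left; rw [← h7]; exact hmem u hu
    · right; rw [← h7]; exact hmem u hu
  let f : ℕ → ℕ := fun i => if 2 * i ∈ S' then 2 * i else 2 * i + 1
  have hf2 : ∀ i, f i = 2 * i ∨ f i = 2 * i + 1 := by
    intro i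
    simp only [f]
    split_ifs <;> simp
  have hfS : ∀ i < 3 * φ.length, f i ∈ S' := by
    intro i hi
    simp only [f]
    split_ifs with h
    · exact h
    · exact (hone i hi).resolve_left h
  have hfinj : Function.Injective f := by
    intro i j h
    have := hf2 i
    have := hf2 j
    omega
  have hnotboth : ∀ i < 3 * φ.length, 2 * i ∈ S' → 2 * i + 1 ∉ S' := by
    intro i hi h1 h2
    have h6 : insert (hub φ.length) (insert (2 * i + 1)
        ((Finset.range (3 * φ.length)).image f)) ⊆ S' := by
      intro x hx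
      rw [Finset.mem_insert, Finset.mem_insert, Finset.mem_image] at hx
      rcases hx with rfl | rfl | ⟨j, hj, rfl⟩
      · exact hhub
      · exact h2
      · exact hfS j (Finset.mem_range.1 hj)
    have h7 := Finset.card_le_card h6
    rw [Finset.card_insert_of_notMem, Finset.card_insert_of_notMem,
      Finset.card_image_of_injective _ hfinj, Finset.card_range, hcard] at h7
    · omega
    · rw [Finset.mem_image]
      rintro ⟨j, _, hj⟩
      have h8 := hf2 j
      have h9 : j = i := by omega
      subst h9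
      simp only [f] at hj
      rw [if_pos h1] at hj
      omega
    · rw [Finset.mem_insert, Finset.mem_image]
      rintro (h | ⟨j, hj, hj'⟩)
      · omega
      · rw [Finset.mem_range] at hj
        have h8 := hf2 j
        omega
  refine ⟨fun i => decide (2 * i ∈ S'), fun c hcφ => ?_⟩
  obtain ⟨j, hj, rfl⟩ := List.getElem_of_mem hcφ
  have h6 : cl0 φ.length + j < hub φ.length := by unfold hub; omega
  obtain ⟨u, hu, hu'⟩ := hS ⟨cl0 φ.length + j, by omega⟩
  have h7 := (adjN_cl φ (b := cl0 φ.length + j) (by omega) h6).1 hu'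
  rw [Nat.add_sub_cancel_left, List.getD_eq_getElem _ _ hj] at h7
  have h8 := hmem u hu
  have h9 : decide (2 * ((u : ℕ) / 2) ∈ S') = decide ((u : ℕ) % 2 = 0) := by
    rw [decide_eq_decide]
    constructor
    · intro h
      by_contra hne
      have h10 : 2 * ((u : ℕ) / 2) + 1 = u := by omega
      have h11 := hnotboth ((u : ℕ) / 2) (by omega) h
      rw [h10] at h11
      exact h11 h8
    · intro h
      have h10 : 2 * ((u : ℕ) / 2) = u := by omega
      rw [h10]
      exact h8
  have key : ∀ l : Lit ℕ, l = litOf u → decide (2 * l.2 ∈ S') = l.1 := by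
    rintro l rfl
    exact h9
  have h10 := h7.2
  unfold hasLit at h10
  simp only [Bool.or_eq_true, decide_eq_true_eq, or_assoc] at h10
  rcases h10 with h10 | h10 | h10
  · exact Or.inl (key _ h10)
  · exact Or.inr (Or.inl (key _ h10))
  · exact Or.inr (Or.inr (key _ h10))

/-- Correctness of the reduction. -/
theorem inst_iff (φ : F3) (hb : Bounded3 φ) (hm : 1 ≤ φ.length) :
    SAT3 φ ↔ gammaT (GG φ) = subT (GG φ) := by
  rw [eq_iff _ (noIsolated φ hb hm), Fintype.card_fin]
  constructor
  · intro h
    obtain ⟨S, hS, hc⟩ := dom_of_sat φ hb hm h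
    exact ⟨S, hS, fun k hk => top_lt φ hm (by omega)⟩
  · rintro ⟨S, hS, hk⟩
    refine sat_of_dom φ hm hS ?_
    by_contra hcon
    push Not at hcon
    exact absurd (hk _ hcon) (not_lt.2 (le_top φ hm))

theorem hardPr : HardPr (fun G : FinGraph => NoIsolated G.graph)
    (fun G : FinGraph => gammaT G.graph = subT G.graph) := by
  refine hardPr_SAT3b.trans poly_inst ?_ ?_
  · rintro φ ⟨_, hb, hne⟩
    exact noIsolated φ hb (List.length_pos_iff.2 hne)
  · rintro φ ⟨_, hb, hne⟩
    exact inst_iff φ hb (List.length_pos_iff.2 hne)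

end Pool.Agent.NPC.L5h57.TD
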