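import Pool.Agent.R542.GI.Dec
import Pool.Agent.R544.Util

/-!
# Total and sub-total domination numbers
-/

set_option autoImplicit false

namespace Pool.Agent.NPC.L5h57.TD

open Pool.Agent.NPC Pool.Agent.H692R2 Pool.Agent.NPC.R542

section Defs

variable {V : Type} [Fintype V]

/-- `S` is a total dominating set of `G`: every vertex of `G` has a neighbour in `S`. -/
def IsTotalDom (G : SimpleGraph V) (S : Finset V) : Prop := ∀ v, ∃ u ∈ S, G.Adj v u

/-- The total domination number: the least size of a total dominating set. -/
noncomputable def gammaT (G : SimpleGraph V) : ℕ :=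
  sInf {k | ∃ S : Finset V, IsTotalDom G S ∧ S.card = k}

open Classical in
/-- The degree sequence, in non-increasing order. -/
noncomputable def degSeq (G : SimpleGraph V) : List ℕ :=
  ((Finset.univ : Finset V).val.map fun v => G.degree v).sort (· ≥ ·)

/-- The sub-total domination number: the least `k` such that the sum of the `k` largest degrees
is at least the number of vertices. -/
noncomputable def subT (G : SimpleGraph V) : ℕ :=
  sInf {k | Fintype.card V ≤ ((degSeq G).take k).sum}

/-- No vertex of `G` is isolated. -/
def NoIsolated (G : SimpleGraph V) : Prop := ∀ v, ∃ u, G.Adj v u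

end Defs

/-- The decision problem TDS-EQ for graphs given by their adjacency matrices: the graph has no
isolated vertex, and its total domination number and its sub-total domination number are equal. -/
def TDSEQ (G : FinGraph) : Prop := NoIsolated G.graph ∧ gammaT G.graph = subT G.graph

/-! ### Sums of largest degrees -/

theorem sum_le_take {l l' : List ℕ} (h : l'.Sublist l) (hl : l.Pairwise (· ≥ ·)) :
    l'.sum ≤ (l.take l'.length).sum := by
  induction h with
  | slnil => simp
  | @cons l₁ l₂ a h ih =>
    have h2 := ih (List.pairwise_cons.1 hl).2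
    refine h2.trans ?_
    have h3 := (List.pairwise_cons.1 hl).1
    generalize l₁.length = k
    clear h2 ih h
    have key : ∀ (k : ℕ) (l : List ℕ) (a : ℕ), (a :: l).Pairwise (· ≥ ·) →
        (l.take k).sum ≤ ((a :: l).take k).sum := by
      intro k
      induction k with
      | zero => intro l a _; simp
      | succ k ih =>
        intro l a hp
        cases l with
        | nil => simp
        | cons b l =>
          have h1 := (List.pairwise_cons.1 hp).1 b (by simp)
          have h2 := ih l b (List.pairwise_cons.1 hp).2
          simp only [List.take_succ_cons, List.sum_cons] at *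
          omega
    exact key k l₂ a hl
  | @cons_cons l₁ l₂ a h ih =>
    have h2 := ih (List.pairwise_cons.1 hl).2
    simp only [List.sum_cons, List.length_cons, List.take_succ_cons]
    omega

section Graph

variable {V : Type} [Fintype V]

theorem degSeq_pairwise (G : SimpleGraph V) : (degSeq G).Pairwise (· ≥ ·) := by
  classical
  exact Multiset.pairwise_sort _ _

open Classical in
theorem sum_degree_le (G : SimpleGraph V) (T : Finset V) :
    ∑ v ∈ T, G.degree v ≤ ((degSeq G).take T.card).sum := by
  have h1 : List.Subperm ((T.val.map fun v => G.degree v).sort (· ≥ ·)) (degSeq G) := by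
    rw [← Multiset.coe_le]
    unfold degSeq
    rw [Multiset.sort_eq, Multiset.sort_eq]
    exact Multiset.map_le_map (Finset.val_le_iff.2 (Finset.subset_univ T))
  have h2 : ((T.val.map fun v => G.degree v).sort (· ≥ ·)).Sublist (degSeq G) :=
    List.sublist_of_subperm_of_pairwise (r := (· ≥ ·)) h1 (Multiset.pairwise_sort _ _) (degSeq_pairwise G)
  have h3 := sum_le_take h2 (degSeq_pairwise G)
  have h4 : ((T.val.map fun v => G.degree v).sort (· ≥ ·)).length = T.card := by simp
  have h5 : ((T.val.map fun v => G.degree v).sort (· ≥ ·)).sum = ∑ v ∈ T, G.degree v := by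
    rw [← Multiset.sum_coe, Multiset.sort_eq]
    rfl
  rw [h4, h5] at h3
  exact h3

theorem take_sum_mono (l : List ℕ) {j k : ℕ} (h : j ≤ k) : (l.take j).sum ≤ (l.take k).sum := by
  obtain ⟨d, rfl⟩ := Nat.exists_eq_add_of_le h
  rw [List.take_add, List.sum_append]
  omega

/-- a total dominating set has at least `n` edges to the vertices -/
theorem card_le_of_dom (G : SimpleGraph V) {S : Finset V} (hS : IsTotalDom G S) :
    Fintype.card V ≤ ((degSeq G).take S.card).sum := by
  classical
  refine le_trans ?_ (sum_degree_le G S)
  have h1 : (Finset.univ : Finset V) ⊆ S.biUnion fun u => G.neighborFinset u := by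
    intro v _
    obtain ⟨u, hu, huv⟩ := hS v
    rw [Finset.mem_biUnion]
    exact ⟨u, hu, by rw [SimpleGraph.mem_neighborFinset]; exact huv.symm⟩
  calc Fintype.card V = (Finset.univ : Finset V).card := rfl
    _ ≤ _ := Finset.card_le_card h1
    _ ≤ ∑ u ∈ S, (G.neighborFinset u).card := Finset.card_biUnion_le
    _ = _ := by simp only [SimpleGraph.card_neighborFinset_eq_degree]

theorem subT_le_of_dom (G : SimpleGraph V) {S : Finset V} (hS : IsTotalDom G S) :
    subT G ≤ S.card := Nat.sInf_le (card_le_of_dom G hS)

theorem exists_dom (G : SimpleGraph V) (h : NoIsolated G) :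
    ∃ S : Finset V, IsTotalDom G S ∧ S.card = gammaT G := by
  have hne : {k | ∃ S : Finset V, IsTotalDom G S ∧ S.card = k}.Nonempty := by
    refine ⟨_, Finset.univ, fun v => ?_, rfl⟩
    obtain ⟨u, hu⟩ := h v
    exact ⟨u, Finset.mem_univ _, hu⟩
  exact Nat.sInf_mem hne

/-- The two parameters are equal if and only if some total dominating set has at most `subT`
elements. -/
theorem eq_iff (G : SimpleGraph V) (h : NoIsolated G) :
    gammaT G = subT G ↔ ∃ S : Finset V, IsTotalDom G S ∧
      ∀ k < S.card, ((degSeq G).take k).sum < Fintype.card V := by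
  constructor
  · intro he
    obtain ⟨S, hS, hc⟩ := exists_dom G h
    refine ⟨S, hS, fun k hk => ?_⟩
    rw [hc, he] at hk
    by_contra hcon
    push Not at hcon
    exact absurd (Nat.sInf_le (s := {k | Fintype.card V ≤ ((degSeq G).take k).sum}) hcon)
      (not_le.2 hk)
  · rintro ⟨S, hS, hk⟩
    have h1 : subT G ≤ gammaT G := by
      obtain ⟨S', hS', hc'⟩ := exists_dom G h
      rw [← hc']
      exact subT_le_of_dom G hS'
    have h2 : gammaT G ≤ S.card := Nat.sInf_le ⟨S, hS, rfl⟩
    have h3 : S.card ≤ subT G := by
      by_contra hcon
      push Not at hcon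
      have h4 := hk _ hcon
      have h5 : subT G ∈ {k | Fintype.card V ≤ ((degSeq G).take k).sum} :=
        Nat.sInf_mem ⟨S.card, card_le_of_dom G hS⟩
      change Fintype.card V ≤ _ at h5
      omega
    omega

end Graph

end Pool.Agent.NPC.L5h57.TD
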