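import Pool.Agent.L5helper57.TD.Defs

/-!
# Deciding equality of the total and the sub-total domination number is in NP
-/

set_option autoImplicit false

namespace Pool.Agent.NPC.L5h57.TD

open Pool.Agent.NPC Pool.Agent.H692R2 Pool.Agent.NPC.R542 Pool.Agent.R544
open Pool.Agent.NPC.R542.GI

theorem take_eq_aux {α : Type} (k : ℕ) : ∀ (l : List α) (j : ℕ),
    ((l.zipIdx j).filter fun q => decide (q.2 < j + k)).map Prod.fst = l.take k
  | [], j => by simp
  | a :: l, j => by
    rw [List.zipIdx_cons]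
    cases k with
    | zero =>
      rw [List.take_zero, List.map_eq_nil_iff, List.filter_eq_nil_iff]
      rintro ⟨b, i⟩ hb
      rw [← List.zipIdx_cons, List.mem_zipIdx_iff_le_and_getElem?_sub] at hb
      simp only [decide_eq_true_eq]
      omega
    | succ k =>
      have ih := take_eq_aux k l (j + 1)
      rw [List.take_succ_cons, ← ih, List.filter_cons_of_pos (by simp), List.map_cons,
        show j + (k + 1) = j + 1 + k by omega]

theorem poly_take {α β : Type} [TEnc α] [TEnc β] {l : α → List β} {k : α → ℕ} (hl : Poly l)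
    (hk : Poly k) : Poly (fun a => (l a).take (k a)) := by
  have h : Poly (fun a => (((l a).zipIdx.filter fun q => decide (q.2 < k a)).map Prod.fst)) := by
    fun_prop
  refine h.congr fun a => ?_
  have := take_eq_aux (k a) (l a) 0
  simpa using this

/-- the degree of a vertex -/
noncomputable def dg (G : FinGraph) (i : ℕ) : ℕ := ((List.range G.n).filter (adjB G i)).length

/-- the degrees of all vertices -/
noncomputable def dgs (G : FinGraph) : List ℕ := (List.range G.n).map (dg G)

theorem poly_dg {α : Type} [TEnc α] {G : α → FinGraph} {i : α → ℕ} (hG : Poly G) (hi : Poly i) :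
    Poly (fun a => dg (G a) (i a)) := by
  unfold dg
  have h1 : Poly (fun a => List.range (G a).n) := (upoly_n hG).range
  have h2 : Poly (fun p : α × ℕ => adjB (G p.1) (i p.1) p.2) :=
    poly_adjB (hG.comp (Poly.fst Poly.id)) (hi.comp (Poly.fst Poly.id)) (Poly.snd Poly.id)
  exact Poly.length (Poly.filter h1 h2)

theorem poly_dgs {α : Type} [TEnc α] {G : α → FinGraph} (hG : Poly G) :
    Poly (fun a => dgs (G a)) := by
  unfold dgs
  have h1 : Poly (fun a => List.range (G a).n) := (upoly_n hG).range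
  exact Poly.map h1 (poly_dg (hG.comp (Poly.fst Poly.id)) (Poly.snd Poly.id))

open Classical in
theorem degree_eq_dg (G : FinGraph) (i : Fin G.n) : G.graph.degree i = dg G i := by
  rw [← SimpleGraph.card_neighborFinset_eq_degree]
  unfold dg
  have h1 : ((List.range G.n).filter (adjB G i)).length =
      ((Finset.range G.n).filter fun b => adjB G i b = true).card := by
    rw [← List.toFinset_card_of_nodup (List.nodup_range.filter _)]
    congr 1
    ext b
    simp
  rw [h1]
  refine Finset.card_bij (fun b _ => (b : ℕ)) ?_ ?_ ?_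
  · intro b hb
    rw [SimpleGraph.mem_neighborFinset] at hb
    rw [Finset.mem_filter, Finset.mem_range]
    exact ⟨b.2, (adjB_iff G i b).2 hb⟩
  · intro b _ b' _ h
    exact Fin.ext h
  · intro b hb
    rw [Finset.mem_filter, Finset.mem_range] at hb
    exact ⟨⟨b, hb.1⟩, by
      rw [SimpleGraph.mem_neighborFinset]; exact (adjB_iff G i ⟨b, hb.1⟩).1 hb.2, rfl⟩

theorem map_degree_eq (G : FinGraph) :
    open Classical in ((Finset.univ : Finset (Fin G.n)).val.map fun v => G.graph.degree v) =
      ((dgs G : List ℕ) : Multiset ℕ) := by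
  classical
  have h1 : (Finset.univ : Finset (Fin G.n)).val = ((List.finRange G.n : List (Fin G.n)) :
      Multiset (Fin G.n)) := rfl
  rw [h1, Multiset.map_coe]
  unfold dgs
  rw [← List.map_coe_finRange_eq_range, List.map_map]
  congr 1
  refine List.map_congr_left fun i _ => ?_
  rw [Function.comp_apply]
  convert degree_eq_dg G i

/-- the degree sequence is the only sorted permutation of the list of degrees -/
theorem degSeq_eq_iff (G : FinGraph) (D : List ℕ) :
    degSeq G.graph = D ↔ D.Perm (dgs G) ∧ D.Pairwise (· ≥ ·) := by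
  classical
  have hp : (degSeq G.graph).Perm (dgs G) := by
    rw [← Multiset.coe_eq_coe]
    unfold degSeq
    rw [Multiset.sort_eq]
    convert map_degree_eq G
  constructor
  · rintro rfl
    exact ⟨hp, degSeq_pairwise _⟩
  · rintro ⟨h1, h2⟩
    exact (hp.trans h1.symm).eq_of_pairwise' (degSeq_pairwise _) h2

/-- the relation between instances and certificates -/
def Rel (G : FinGraph) (w : List ℕ × List ℕ) : Prop :=
  (∀ i ∈ List.range G.n, ∃ j ∈ List.range G.n, adjB G i j = true) ∧
  (∀ a ∈ w.1 ++ dgs G, (w.1.filter fun b => decide (b = a)).length =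
    ((dgs G).filter fun b => decide (b = a)).length) ∧
  (∀ i ∈ List.range w.1.length, ∀ j ∈ List.range w.1.length,
    ¬ i < j ∨ w.1.getD j 0 ≤ w.1.getD i 0) ∧
  (∀ i ∈ List.range G.n, ∃ u ∈ w.2, u < G.n ∧ adjB G i u = true) ∧
  (∀ k ∈ List.range w.2.length, (w.1.take k).sum < G.n)

theorem pp_rel : PP (fun x : FinGraph × (List ℕ × List ℕ) => Rel x.1 x.2) := by
  have hG : Poly (fun x : FinGraph × (List ℕ × List ℕ) => x.1) := Poly.fst Poly.id
  have hr : Poly (fun x : FinGraph × (List ℕ × List ℕ) => List.range x.1.n) := (upoly_n hG).range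
  have hD : Poly (fun x : FinGraph × (List ℕ × List ℕ) => x.2.1) := Poly.fst (Poly.snd Poly.id)
  have hS : Poly (fun x : FinGraph × (List ℕ × List ℕ) => x.2.2) := Poly.snd (Poly.snd Poly.id)
  have hdg : Poly (fun x : FinGraph × (List ℕ × List ℕ) => dgs x.1) := poly_dgs hG
  have hrD : Poly (fun x : FinGraph × (List ℕ × List ℕ) => List.range x.2.1.length) :=
    (UPoly.length hD).range
  have hrS : Poly (fun x : FinGraph × (List ℕ × List ℕ) => List.range x.2.2.length) :=
    (UPoly.length hS).range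
  unfold Rel
  refine PP.and ?_ (PP.and ?_ (PP.and ?_ (PP.and ?_ ?_)))
  · refine PP.ball hr (PP.bex (hr.comp (Poly.fst Poly.id)) (PP.bool ?_))
    exact poly_adjB (Poly.fst (Poly.fst (Poly.fst Poly.id))) (Poly.snd (Poly.fst Poly.id))
      (Poly.snd Poly.id)
  · refine PP.ball (Poly.append hD hdg) (PP.eq ?_ ?_)
    · have h1 := hD.comp (Poly.fst (Poly.id (α := (FinGraph × (List ℕ × List ℕ)) × ℕ)))
      fun_prop
    · have h1 := hdg.comp (Poly.fst (Poly.id (α := (FinGraph × (List ℕ × List ℕ)) × ℕ)))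
      fun_prop
  · refine PP.ball hrD (PP.ball (hrD.comp (Poly.fst Poly.id)) (PP.or (PP.not (PP.lt ?_ ?_))
      (PP.le ?_ ?_)))
    all_goals fun_prop
  · refine PP.ball hr (PP.bex (hS.comp (Poly.fst Poly.id)) (PP.and (PP.lt (Poly.snd Poly.id)
      (poly_n (Poly.fst (Poly.fst (Poly.fst Poly.id))))) (PP.bool ?_)))
    exact poly_adjB (Poly.fst (Poly.fst (Poly.fst Poly.id))) (Poly.snd (Poly.fst Poly.id))
      (Poly.snd Poly.id)
  · refine PP.ball hrS (PP.lt ?_ ?_)
    · exact Poly.sum (poly_take (hD.comp (Poly.fst Poly.id)) (Poly.snd Poly.id))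
    · exact poly_n (Poly.fst (Poly.fst Poly.id))

theorem perm_of_counts {D E : List ℕ} (h : ∀ a ∈ D ++ E, (D.filter fun b => decide (b = a)).length =
    (E.filter fun b => decide (b = a)).length) : D.Perm E := by
  rw [List.perm_iff_count]
  intro a
  by_cases ha : a ∈ D ++ E
  · have h1 := h a ha
    have h2 : ∀ l : List ℕ, (l.filter fun b => decide (b = a)).length = l.count a := by
      intro l
      rw [List.count_eq_length_filter]
      rfl
    rwa [h2, h2] at h1
  · rw [List.mem_append, not_or] at ha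
    rw [List.count_eq_zero_of_not_mem ha.1, List.count_eq_zero_of_not_mem ha.2]

theorem rel_sound (G : FinGraph) (w : List ℕ × List ℕ) (h : Rel G w) : TDSEQ G := by
  classical
  obtain ⟨h1, h2, h3, h4, h5⟩ := h
  have hni : NoIsolated G.graph := by
    intro i
    obtain ⟨j, hj, hij⟩ := h1 i (List.mem_range.2 i.2)
    exact ⟨⟨j, List.mem_range.1 hj⟩, (adjB_iff G i ⟨j, List.mem_range.1 hj⟩).1 hij⟩
  refine ⟨hni, (eq_iff _ hni).2 ?_⟩
  have hD : degSeq G.graph = w.1 := by
    rw [degSeq_eq_iff]
    refine ⟨perm_of_counts h2, ?_⟩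
    rw [List.pairwise_iff_getElem]
    intro i j hi hj hij
    have := (h3 i (List.mem_range.2 hi) j (List.mem_range.2 hj)).resolve_left (not_not.2 hij)
    rw [List.getD_eq_getElem _ _ hi, List.getD_eq_getElem _ _ hj] at this
    exact this
  refine ⟨Finset.univ.filter fun u : Fin G.n => (u : ℕ) ∈ w.2, ?_, ?_⟩
  · intro v
    obtain ⟨u, hu, hun, huv⟩ := h4 v (List.mem_range.2 v.2)
    exact ⟨⟨u, hun⟩, by simpa using hu, (adjB_iff G v ⟨u, hun⟩).1 huv⟩
  · intro k hk
    rw [hD, Fintype.card_fin]
    apply h5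
    rw [List.mem_range]
    refine lt_of_lt_of_le hk ?_
    rw [← Finset.card_image_of_injective _ Fin.val_injective]
    refine le_trans (Finset.card_le_card (t := w.2.toFinset) ?_) (List.toFinset_card_le _)
    intro x hx
    rw [Finset.mem_image] at hx
    obtain ⟨u, hu, rfl⟩ := hx
    rw [List.mem_toFinset]
    simpa using hu

theorem dg_le (G : FinGraph) (i : ℕ) : dg G i ≤ G.n := by
  unfold dg
  refine (List.length_filter_le _ _).trans ?_
  rw [List.length_range]

theorem rel_complete (G : FinGraph) (h : TDSEQ G) : ∃ w : List ℕ × List ℕ,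
    w.1.length ≤ G.n ∧ w.2.length ≤ G.n ∧ (∀ a ∈ w.1, a ≤ G.n) ∧ (∀ a ∈ w.2, a ≤ G.n) ∧
      Rel G w := by
  classical
  obtain ⟨hni, he⟩ := h
  obtain ⟨S, hS, hk⟩ := (eq_iff _ hni).1 he
  obtain ⟨hp, hs⟩ := (degSeq_eq_iff G (degSeq G.graph)).1 rfl
  refine ⟨(degSeq G.graph, S.toList.map Fin.val), ?_, ?_, ?_, ?_, ?_, ?_, ?_, ?_, ?_⟩
  · rw [hp.length_eq]
    unfold dgs
    simp
  · simp only [List.length_map, Finset.length_toList]
    have := Finset.card_le_univ S
    rwa [Fintype.card_fin] at this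
  · intro a ha
    rw [hp.mem_iff] at ha
    unfold dgs at ha
    rw [List.mem_map] at ha
    obtain ⟨i, _, rfl⟩ := ha
    exact dg_le G i
  · intro a ha
    simp only [List.mem_map, Finset.mem_toList] at ha
    obtain ⟨u, _, rfl⟩ := ha
    exact u.2.le
  · intro i hi
    rw [List.mem_range] at hi
    obtain ⟨j, hj⟩ := hni ⟨i, hi⟩
    exact ⟨j, List.mem_range.2 j.2, (adjB_iff G ⟨i, hi⟩ j).2 hj⟩
  · intro a _
    exact (hp.filter _).length_eq
  · intro i hi j hj
    by_cases hij : i < j
    · right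
      rw [List.mem_range] at hi hj
      rw [List.getD_eq_getElem _ _ hi, List.getD_eq_getElem _ _ hj]
      exact List.pairwise_iff_getElem.1 hs i j hi hj hij
    · exact Or.inl hij
  · intro i hi
    rw [List.mem_range] at hi
    obtain ⟨u, hu, hu'⟩ := hS ⟨i, hi⟩
    exact ⟨u, List.mem_map.2 ⟨u, Finset.mem_toList.2 hu, rfl⟩, u.2,
      (adjB_iff G ⟨i, hi⟩ u).2 hu'⟩
  · intro k hk'
    rw [List.mem_range] at hk'
    simp only [List.length_map, Finset.length_toList] at hk'
    have := hk k hk'
    rwa [Fintype.card_fin] at this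

theorem sz_list_le' (l : List ℕ) (n : ℕ) (h1 : l.length ≤ n) (h2 : ∀ a ∈ l, a ≤ n) :
    sz l ≤ n * (4 * n + 2) + 1 := by
  have h3 : ∀ a ∈ l, sz a ≤ 4 * n + 1 := by
    intro a ha
    have h4 := sz_nat_le a
    have h5 : a.size ≤ a := by
      rw [Nat.size_le]
      exact Nat.lt_two_pow_self
    have := h2 a ha
    omega
  have h4 := sz_le_length_mul l _ h3
  have h5 : l.length * (4 * n + 2) ≤ n * (4 * n + 2) := Nat.mul_le_mul_right _ h1
  exact h4.trans (Nat.add_le_add_right h5 1)

theorem inNPP : InNPP TDSEQ := by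
  refine inNPP_of_pp pp_rel (2 * (Polynomial.X * (4 * Polynomial.X + 2) + 1) + 1) ?_ rel_sound
  intro G hG
  obtain ⟨w, h1, h2, h3, h4, h5⟩ := rel_complete G hG
  refine ⟨w, ?_, h5⟩
  have h6 : G.n ≤ sz G := by
    have h4 := length_lt_sz G.matrix
    rw [matrix_length] at h4
    exact h4.le
  have h7 := sz_list_le' w.1 G.n h1 h3
  have h8 := sz_list_le' w.2 G.n h2 h4
  have h9 : G.n * (4 * G.n + 2) ≤ sz G * (4 * sz G + 2) :=
    Nat.mul_le_mul h6 (by omega)
  have h10 : sz w = sz w.1 + sz w.2 + 1 := sz_pair w.1 w.2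
  simp only [Polynomial.eval_add, Polynomial.eval_mul, Polynomial.eval_X,
    Polynomial.eval_ofNat, Polynomial.eval_one]
  omega

end Pool.Agent.NPC.L5h57.TD
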