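import Pool.Agent.L5helper57.TD.Defs
import Pool.Agent.NPC.Sat2

/-!
# Deciding equality of the total and the sub-total domination number is NP-hard
-/

set_option autoImplicit false

namespace Pool.Agent.NPC.L5h57.TD

open Pool.Agent.NPC Pool.Agent.H692R2 Pool.Agent.NPC.R542

/-- the literal number `a` (variable `a / 2`, positive if `a` is even) -/
def litOf (a : ℕ) : Lit ℕ := (decide (a % 2 = 0), a / 2)

/-- the literal number `a` is in the clause -/
def hasLit (c : Lit ℕ × Lit ℕ × Lit ℕ) (a : ℕ) : Bool :=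
  decide (c.1 = litOf a) || decide (c.2.1 = litOf a) || decide (c.2.2 = litOf a)

/-- number of copies -/
def rr (m : ℕ) : ℕ := 3 * m * (m + 1)

/-- first clause vertex -/
def cl0 (m : ℕ) : ℕ := 6 * m + 3 * m * rr m

/-- the hub -/
def hub (m : ℕ) : ℕ := cl0 m + m

/-- bound for the other degrees -/
def bd (m : ℕ) : ℕ := 1 + rr m + m

/-- the number of vertices -/
def NN (m : ℕ) : ℕ := hub m + 1 + bd m

/-- the default clause -/
def dflt : Lit ℕ × Lit ℕ × Lit ℕ := ((true, 0), (true, 0), (true, 0))

/-- edges, in one direction -/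
def adjE (φ : F3) (a b : ℕ) : Bool :=
  (decide (a < 6 * φ.length) && decide (6 * φ.length ≤ b) && decide (b < cl0 φ.length) &&
    decide ((b - 6 * φ.length) % (3 * φ.length) = a / 2)) ||
  (decide (a < 6 * φ.length) && decide (cl0 φ.length ≤ b) && decide (b < hub φ.length) &&
    hasLit (φ.getD (b - cl0 φ.length) dflt) a) ||
  (decide (a < 6 * φ.length) && decide (b = hub φ.length)) ||
  (decide (a = hub φ.length) && decide (hub φ.length < b))

theorem adjE_iff (φ : F3) (a b : ℕ) : adjE φ a b = true ↔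
    (a < 6 * φ.length ∧ 6 * φ.length ≤ b ∧ b < cl0 φ.length ∧
      (b - 6 * φ.length) % (3 * φ.length) = a / 2) ∨
    (a < 6 * φ.length ∧ cl0 φ.length ≤ b ∧ b < hub φ.length ∧
      hasLit (φ.getD (b - cl0 φ.length) dflt) a = true) ∨
    (a < 6 * φ.length ∧ b = hub φ.length) ∨ (a = hub φ.length ∧ hub φ.length < b) := by
  unfold adjE
  simp only [Bool.or_eq_true, Bool.and_eq_true, decide_eq_true_eq, or_assoc, and_assoc]

theorem six_le_cl0 (m : ℕ) : 6 * m ≤ cl0 m := by unfold cl0; omega

theorem cl0_le_hub (m : ℕ) : cl0 m ≤ hub m := by unfold hub; omega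

theorem adjE_lt (φ : F3) {a b : ℕ} (h : adjE φ a b = true) : a < b := by
  rw [adjE_iff] at h
  have h1 := six_le_cl0 φ.length
  have h2 := cl0_le_hub φ.length
  rcases h with h | h | h | h <;> omega

/-- adjacency -/
def adjN (φ : F3) (a b : ℕ) : Bool := adjE φ a b || adjE φ b a

theorem adjN_symm (φ : F3) (a b : ℕ) : adjN φ a b = adjN φ b a := by
  unfold adjN; rw [Bool.or_comm]

/-- the graph of a formula -/
def GG (φ : F3) : SimpleGraph (Fin (NN φ.length)) where
  Adj x y := adjN φ x y = true
  symm := ⟨fun x y h => by rw [adjN_symm]; exact h⟩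
  loopless := ⟨fun x h => by
    unfold adjN at h
    rw [Bool.or_self] at h
    exact absurd (adjE_lt φ h) (lt_irrefl _)⟩

/-- the instance of the problem -/
def inst (φ : F3) : FinGraph := ⟨NN φ.length, GG φ⟩

theorem poly_inst : Poly inst := by
  have hm : UPoly (fun φ : F3 => φ.length) := UPoly.length Poly.id
  have hrr : UPoly (fun φ : F3 => rr φ.length) := by
    unfold rr
    exact UPoly.mul (UPoly.mul (UPoly.const 3) hm) (UPoly.add hm (UPoly.const 1))
  have hcl : UPoly (fun φ : F3 => cl0 φ.length) := by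
    unfold cl0
    exact UPoly.add (UPoly.mul (UPoly.const 6) hm) (UPoly.mul (UPoly.mul (UPoly.const 3) hm) hrr)
  have hhub : UPoly (fun φ : F3 => hub φ.length) := by
    unfold hub
    exact UPoly.add hcl hm
  have hN : UPoly (fun φ : F3 => NN φ.length) := by
    unfold NN bd
    exact UPoly.add (UPoly.add hhub (UPoly.const 1)) (UPoly.add (UPoly.add (UPoly.const 1) hrr) hm)
  have hclP := hcl.toPoly
  have hhubP := hhub.toPoly
  refine poly_finGraph (b := fun φ x y => adjN φ x y) hN ?_ ?_
  · have key : ∀ {f g : (F3 × ℕ) × ℕ → ℕ}, Poly f → Poly g →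
        Poly (fun p : (F3 × ℕ) × ℕ => adjE p.1.1 (f p) (g p)) := by
      intro f g hf hg
      unfold adjE hasLit litOf
      have hclP' : Poly (fun p : (F3 × ℕ) × ℕ => cl0 p.1.1.length) :=
        hclP.comp (Poly.fst (Poly.fst Poly.id))
      have hhubP' : Poly (fun p : (F3 × ℕ) × ℕ => hub p.1.1.length) :=
        hhubP.comp (Poly.fst (Poly.fst Poly.id))
      fun_prop
    exact Poly.or (key (Poly.snd (Poly.fst Poly.id)) (Poly.snd Poly.id))
      (key (Poly.snd Poly.id) (Poly.snd (Poly.fst Poly.id)))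
  · intro φ i j
    exact Iff.rfl

end Pool.Agent.NPC.L5h57.TD
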